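import Pool.Agent.helper5.PR.SpecS

/-!
# Project pr: (MP_a2a22c_al), module S-FIN: the classification
-/

set_option autoImplicit false

namespace Pool.Agent.PR

open Matrix

theorem S_FIN_inf {L : Type} [Group L] (c : ℕ) (P : Subgroup L) (hP : NilC c P) : Infinite L := by
  obtain ⟨-, htf, hne⟩ := hP
  by_contra hfin
  rw [not_infinite_iff_finite] at hfin
  apply hne
  rw [Subgroup.eq_bot_iff_forall]
  intro g _
  by_contra hg
  have : Finite P := inferInstance
  exact htf g hg (Nat.card P) Nat.card_pos pow_card_eq_one'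

theorem S_FIN_center (n m : ℕ) : Finite (Subgroup.center (SLI n m)) := by
  have : Finite (rootsOfUnity (max (Fintype.card (Fin n)) 1) (ZI m)) := by
    have : NeZero (max (Fintype.card (Fin n)) 1) := ⟨by omega⟩
    infer_instance
  exact Finite.of_equiv _
    (Matrix.SpecialLinearGroup.center_equiv_rootsOfUnity (n := Fin n) (R := ZI m)).symm.toEquiv

/-- passing to the quotient by the centre -/
theorem S_FIN_quot {Λ L G : Type} [Group Λ] [Group L] [Group G] (π : Λ →* L)
    (hπ : Function.Surjective π) (hc : π.ker ≤ Subgroup.center Λ) (R : Λ →* G)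
    (hR : Function.Surjective R) (hk : Finite R.ker) (hG : Finite (Subgroup.center G)) :
    ∃ f : L →* G ⧸ Subgroup.center G, Function.Surjective f ∧ Finite f.ker := by
  have hker : π.ker ≤ ((QuotientGroup.mk' (Subgroup.center G)).comp R).ker := by
    intro x hx
    rw [MonoidHom.mem_ker, MonoidHom.comp_apply, QuotientGroup.mk'_apply,
      QuotientGroup.eq_one_iff, Subgroup.mem_center_iff]
    intro g
    obtain ⟨y, rfl⟩ := hR g
    rw [← map_mul, ← map_mul, (Subgroup.mem_center_iff.1 (hc hx)) y]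
  let f : L →* G ⧸ Subgroup.center G :=
    (π.liftOfSurjective hπ) ⟨(QuotientGroup.mk' (Subgroup.center G)).comp R, hker⟩
  have hf : ∀ x, f (π x) = QuotientGroup.mk' (Subgroup.center G) (R x) := by
    intro x
    exact MonoidHom.liftOfRightInverse_comp_apply π _ _ _ x
  refine ⟨f, ?_, ?_⟩
  · intro z
    obtain ⟨g, rfl⟩ := QuotientGroup.mk'_surjective _ z
    obtain ⟨x, rfl⟩ := hR g
    exact ⟨π x, hf x⟩
  · have h1 : Finite ((Subgroup.center G).comap R) := by
      have h2 : (((Subgroup.center G).comap R : Subgroup Λ) : Set Λ).Finite := by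
        have h3 : ((Subgroup.center G : Subgroup G) : Set G).Finite := Set.toFinite _
        refine Set.Finite.preimage' (f := R) h3 ?_
        intro b _
        obtain ⟨y, rfl⟩ := hR b
        have h4 : ((R.ker : Subgroup Λ) : Set Λ).Finite := Set.toFinite _
        refine (h4.image (fun k => y * k)).subset ?_
        intro x hx
        refine ⟨y⁻¹ * x, ?_, by simp⟩
        have hx' : R x = R y := hx
        change R (y⁻¹ * x) = 1
        rw [map_mul, map_inv, hx', inv_mul_cancel]
      exact h2.to_subtype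
    have h5 : ((f.ker : Subgroup L) : Set L).Finite := by
      have h6 : (((Subgroup.center G).comap R : Subgroup Λ) : Set Λ).Finite := Set.toFinite _
      refine (h6.image π).subset ?_
      intro l hl
      obtain ⟨x, rfl⟩ := hπ l
      refine ⟨x, ?_, rfl⟩
      have h7 : f (π x) = 1 := hl
      rw [hf, QuotientGroup.mk'_apply, QuotientGroup.eq_one_iff] at h7
      exact h7
    exact h5.to_subtype

theorem S_FIN_range {p : ℕ} [Fact p.Prime] {n : ℕ} {Λ : Type} [Group Λ]
    (ρ : Λ →* GL (Fin n) ℤ_[p]) (h : (Set.range ρ).Infinite) :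
    (Set.range ((Matrix.GeneralLinearGroup.map (algebraMap ℤ_[p] ℚ_[p])).comp ρ)).Infinite := by
  have hinj : Function.Injective
      (Matrix.GeneralLinearGroup.map (n := Fin n) (algebraMap ℤ_[p] ℚ_[p])) := by
    intro a b hab
    apply Units.ext
    ext i j
    have h1 := congrArg (fun x : GL (Fin n) ℚ_[p] => (x : Matrix (Fin n) (Fin n) ℚ_[p]) i j) hab
    exact Subtype.ext h1
  have h1 : Set.range ((Matrix.GeneralLinearGroup.map (algebraMap ℤ_[p] ℚ_[p])).comp ρ) =
      (Matrix.GeneralLinearGroup.map (n := Fin n) (algebraMap ℤ_[p] ℚ_[p])) '' Set.range ρ := by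
    rw [← Set.range_comp]
    rfl
  rw [h1]
  exact h.image hinj.injOn

theorem S_FIN (hSYS : S_SYS_stmt) (hEXP : S_EXP_stmt) (hEXT : S_EXT_stmt)
    (hNILP : S_NILP_stmt) (hMAIN : S_MAIN_stmt) (hFG : K_FG_stmt) : S_FIN_stmt := by
  intro n hn L _ hL hRF hQ P hP
  have hinf : Infinite L := S_FIN_inf _ P hP
  obtain ⟨S, -, -, -⟩ := hSYS (SLZ n) L (hFG n) hQ (Multiplicative (ZMod 1)) 1
  obtain ⟨p, hp, hU⟩ := hEXP n hn L hL hRF hinf S
  have : Fact p.Prime := ⟨hp⟩
  obtain ⟨Λ, _, π, ρ, h1, h2, h3, hπ, hk, hc, hρ, -⟩ := hEXT n hn L hL hRF S p hU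
  obtain ⟨P', hP'⟩ := hNILP Λ L π hπ hk hc h3 _ P hP
  obtain ⟨m, R, hm, hR, hRk⟩ := hMAIN n hn Λ h1 h2 h3 ℚ_[p] _ (S_FIN_range ρ hρ) P' hP'
  obtain ⟨f, hf1, hf2⟩ := S_FIN_quot π hπ hc R hR hRk (S_FIN_center n m)
  exact ⟨m, f, hm, hf1, hf2⟩

end Pool.Agent.PR
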