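import Pool.Agent.helper48.PR.SpecL

/-!
# Project pr (MP_a2a22c_al), module LT1: first main theorem
-/

set_option autoImplicit false

namespace Pool.Agent.PR

open Matrix

theorem LT1 (hLRHO : LRHO_stmt) (hLFAI : LFAI_stmt) (hNIL : NIL_stmt) (hLTR : LTR_stmt) :
    LT1_stmt := by
  intro n hn Λ _ hFG h1 h2 hRF P hP
  have hex : ∀ q : Nat.Primes, ∃ f : Λ →* GL (Fin n) ℤ_[(q : ℕ)], (Set.range f).Infinite :=
    fun q => hLRHO n hn Λ hFG h2 (q : ℕ)
  choose f hf using hex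
  let p : Nat.Primes := ⟨2, Nat.prime_two⟩
  have hinj : Function.Injective (f p) := hLFAI n hn Λ hFG h1 hRF f hf p
  let ρ : P →* Matrix (Fin n) (Fin n) ℚ_[(p : ℕ)] :=
    ((((PadicInt.Coe.ringHom (p := (p : ℕ))).mapMatrix (m := Fin n)).toMonoidHom).comp
      (Units.coeHom (Matrix (Fin n) (Fin n) ℤ_[(p : ℕ)]))).comp ((f p).comp P.subtype)
  have hρ : ∀ x : P, ρ x = qM (f p (x : Λ)) := fun x => rfl
  have hρi : Function.Injective ρ := by
    intro x y hxy
    rw [hρ, hρ] at hxy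
    have h3 : (f p (x : Λ) : Matrix (Fin n) (Fin n) ℤ_[(p : ℕ)]) = f p (y : Λ) := by
      ext i j
      have h4 := congrFun (congrFun hxy i) j
      exact Subtype.coe_injective h4
    exact Subtype.ext (hinj (Units.ext h3))
  obtain ⟨t, u, htu, hrk, hpow⟩ := hNIL n hn ℚ_[(p : ℕ)] P hP ρ hρi
  refine hLTR n hn Λ hFG h1 hRF f hf p (t : Λ) (u : Λ) ?_ ?_ ?_
  · exact congrArg Subtype.val htu
  · intro k hk m he
    apply hpow k hk m
    apply Subtype.ext
    push_cast
    exact he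
  · rw [← hρ]
    exact hrk

end Pool.Agent.PR
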