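import Pool.Agent.helper5.PR.SpecS

/-!
# Project pr: (MP_a2a22c_al), module S-ALM: zero-one law
-/

set_option autoImplicit false

namespace Pool.Agent.PR

open Matrix

theorem S_ALM_inf {ℓ : ℕ} [Fact ℓ.Prime] {n m : ℕ} {Λ : Type} [Group Λ]
    (r : Λ →* GL (Fin n) (Om ℓ)) (R : Matrix (Fin n) (Fin n × Fin m) (Om ℓ))
    (R' : Matrix (Fin n × Fin m) (Fin n) (Om ℓ)) (f : Λ →* GL (Fin n × Fin m) ℤ_[ℓ])
    (hR : R * R' = 1)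
    (h : ∀ l, R * (f l : Matrix (Fin n × Fin m) (Fin n × Fin m) ℤ_[ℓ]).map
      (algebraMap ℤ_[ℓ] (Om ℓ)) = (r l : Matrix (Fin n) (Fin n) (Om ℓ)) * R)
    (hr : (Set.range r).Infinite) : (Set.range f).Infinite := by
  intro hf
  apply hr
  have h1 : (Set.range fun l => (r l : Matrix (Fin n) (Fin n) (Om ℓ))).Finite := by
    refine (hf.image fun x : GL (Fin n × Fin m) ℤ_[ℓ] =>
      R * (x : Matrix (Fin n × Fin m) (Fin n × Fin m) ℤ_[ℓ]).map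
        (algebraMap ℤ_[ℓ] (Om ℓ)) * R').subset ?_
    rintro _ ⟨l, rfl⟩
    refine ⟨f l, ⟨l, rfl⟩, ?_⟩
    change R * (f l : Matrix (Fin n × Fin m) (Fin n × Fin m) ℤ_[ℓ]).map
        (algebraMap ℤ_[ℓ] (Om ℓ)) * R' = (r l : Matrix (Fin n) (Fin n) (Om ℓ))
    rw [h l, Matrix.mul_assoc, hR, Matrix.mul_one]
  refine Set.Finite.of_finite_image (f := fun x : GL (Fin n) (Om ℓ) =>
    (x : Matrix (Fin n) (Fin n) (Om ℓ))) (h1.subset ?_) ?_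
  · rintro _ ⟨_, ⟨l, rfl⟩, rfl⟩
    exact ⟨l, rfl⟩
  · intro a _ b _ hab
    exact Units.ext hab

theorem S_ALM (hONE : S_ONE_stmt) (hBC : K_BC_stmt) (hEMB : K_EMB_stmt) (hBLK : K_BLK_stmt) :
    S_ALM_stmt := by
  intro n hn Λ _ hFG S N E _ _ ρ hρ
  obtain ⟨T, hT, hbc⟩ := hBC N Λ hFG E ρ
  obtain ⟨⟨N₀, hN₀, hemb⟩, -, -⟩ := hEMB E T
  refine ⟨N₀, hN₀, fun ℓ hℓ hd => ?_⟩
  have : Fact ℓ.Prime := ⟨hℓ⟩
  obtain ⟨σ, hσ⟩ := hemb ℓ hd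
  obtain ⟨r, hr, hinf⟩ := hbc (Om ℓ) σ hσ.1
  have hint : ∀ l i j, IsIntegral ℤ_[ℓ] ((r l : Matrix (Fin N) (Fin N) (Om ℓ)) i j) := by
    intro l i j
    rw [hr l i j (hT l i j)]
    exact hσ.2 _
  obtain ⟨m, R, R', f, hR, hf⟩ := hBLK ℓ N Λ hFG r hint
  exact hONE n hn Λ S ℓ (Fin N × Fin m) f (S_ALM_inf r R R' f hR hf (hinf hρ))

end Pool.Agent.PR
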